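import Pool.Agent.Helper82.DG.Part3

/-!
# From a window to the adapted coordinates of the middle kite
-/

set_option autoImplicit false

namespace Pool.Agent.Helper82.DG

open Pool.Agent.Helper18.RAC Complex

variable {V : Type*}

/-- the adapted coordinates of a kite are affine coordinates of the plane -/
theorem fr_of_coords {X Y : ℂ → ℝ} {q u w : ℂ}
    (h1 : ∀ z : ℂ, z.re = q.re + X z * (u.re - q.re) + Y z * (w.re - q.re) ∧
      z.im = q.im + X z * (u.im - q.im) + Y z * (w.im - q.im))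
    (h2 : ∀ (z : ℂ) (x y : ℝ), z.re = q.re + x * (u.re - q.re) + y * (w.re - q.re) →
      z.im = q.im + x * (u.im - q.im) + y * (w.im - q.im) → X z = x ∧ Y z = y)
    (h3 : Dt u w q ≠ 0) : Fr X Y := by
  have hD : (u.re - q.re) * (w.im - q.im) - (u.im - q.im) * (w.re - q.re) ≠ 0 := by
    intro h
    apply h3
    unfold Dt
    linarith
  have hX : X = fun z : ℂ => ((z.re - q.re) * (w.im - q.im) - (z.im - q.im) * (w.re - q.re)) /
      ((u.re - q.re) * (w.im - q.im) - (u.im - q.im) * (w.re - q.re)) := by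
    funext z
    rw [eq_div_iff hD]
    obtain ⟨e1, e2⟩ := h1 z
    linear_combination (-(w.im - q.im)) * e1 + (w.re - q.re) * e2
  have hY : Y = fun z : ℂ => ((u.re - q.re) * (z.im - q.im) - (u.im - q.im) * (z.re - q.re)) /
      ((u.re - q.re) * (w.im - q.im) - (u.im - q.im) * (w.re - q.re)) := by
    funext z
    rw [eq_div_iff hD]
    obtain ⟨e1, e2⟩ := h1 z
    linear_combination (u.im - q.im) * e1 - (u.re - q.re) * e2
  have hlin : ∀ (z z' : ℂ) (t : ℝ), X ((1 - t) • z + t • z') = (1 - t) * X z + t * X z' ∧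
      Y ((1 - t) • z + t • z') = (1 - t) * Y z + t * Y z' := by
    intro z z' t
    obtain ⟨e1, e2⟩ := h1 z
    obtain ⟨e3, e4⟩ := h1 z'
    apply h2
    · simp only [Complex.add_re, Complex.real_smul, Complex.mul_re, Complex.ofReal_re,
        Complex.ofReal_im, zero_mul, sub_zero]
      linear_combination (1 - t) * e1 + t * e3
    · simp only [Complex.add_im, Complex.real_smul, Complex.mul_im, Complex.ofReal_re,
        Complex.ofReal_im, zero_mul, add_zero]
      linear_combination (1 - t) * e2 + t * e4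
  refine ⟨?_, ?_, fun z z' t => (hlin z z' t).1, fun z z' t => (hlin z z' t).2, ?_⟩
  · rw [hX]
    fun_prop
  · rw [hY]
    fun_prop
  · intro z z' e e'
    obtain ⟨e1, e2⟩ := h1 z
    obtain ⟨e3, e4⟩ := h1 z'
    apply Complex.ext
    · rw [e1, e3, e, e']
    · rw [e2, e4, e, e']

theorem gdraw_of_frame {H : SimpleGraph V} {f : V → ℂ} {a b : V} {w c : ℤ → V} {q : ℤ → ℂ}
    (h : WinR H f a b w c q 20) {κ : GX → V} {M : ℕ} (hg : HasGrid H κ M) {δ : ℤ}
    (hδ : δ = 1 ∨ δ = -1) (hE : κ (.X true) = w δ) (hW : κ (.Y true) = w (-δ))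
    (hS : κ (.Y false) = w 0)
    (hF : κ (.X false) = c 0 ∧
      (∀ σ i, i < M → Cell f w c q 0 δ true (f (κ (.v (.U σ i))))) ∧
      (∀ j, j < 2 * M → Cell f w c q 0 δ false (f (κ (.v (.P false j))))) ∧
      (∀ j ε, j + 1 < 2 * M → Cell f w c q 0 δ false (f (κ (.v (.C false j ε))))) ∧
      (∀ j, j < 2 * M → Cell f w c q 0 (-δ) true (f (κ (.v (.P true j))))) ∧
      (∀ j ε, j + 1 < 2 * M → Cell f w c q 0 (-δ) true (f (κ (.v (.C true j ε))))) ∧
      Cell f w c q 0 δ true (f (κ (.v (.D (M - 1) (M - 1)))))) :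
    ∃ (X Y : ℂ → ℝ) (E F a' b' : ℝ), Fr X Y ∧
      GDraw H (fun v => X (f v)) (fun v => Y (f v)) E F a' b' κ M ∧
      ∀ v y, (NE (fun v => X (f v)) (fun v => Y (f v)) v ∨
          SE (fun v => X (f v)) (fun v => Y (f v)) b' v ∨
          NW (fun v => X (f v)) (fun v => Y (f v)) a' v) →
        H.Adj v y → CoreH H a b y → Cor κ y := by
  obtain ⟨hc0, hU, hP0, hC0, hP1, hC1, hDD⟩ := hF
  have e0 : (0 : ℤ) + δ = δ := zero_add δ
  have e1 : (0 : ℤ) - δ = -δ := zero_sub δ
  have e2 : (0 : ℤ) + -δ = -δ := zero_add _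
  have hδ' : -δ = 1 ∨ -δ = -1 := by omega
  have hk : Kite H f (κ (.X true)) (κ (.Y true)) (κ (.X false)) (κ (.Y false)) (q 0) := by
    have := h.ck (s := 0) hδ true (by norm_num) (by norm_num)
    rw [e0, e1] at this
    rw [hE, hW, hS, hc0]
    exact this
  obtain ⟨X, Y, E, F, a', b', hd, hKN, hNE, hSE, hNW, hdec, hun, hDt⟩ := hk.coords h.rac
  have cNE : ∀ z, Cell f w c q 0 δ true z ↔ 0 < X z ∧ 0 < Y z ∧ X z + Y z < 1 := by
    intro z
    rw [← hNE z, hE, hc0]
    unfold Cell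
    rw [e0]
    rfl
  have cSE : ∀ z, Cell f w c q 0 δ false z ↔ 0 < X z ∧ Y z < 0 ∧ b' * X z - Y z < b' := by
    intro z
    rw [← hSE z, hE, hS]
    unfold Cell
    rw [e0]
    rfl
  have cNW : ∀ z, Cell f w c q 0 (-δ) true z ↔ 0 < Y z ∧ X z < 0 ∧ a' * Y z - X z < a' := by
    intro z
    rw [← hNW z, hW, hc0]
    unfold Cell
    rw [e2]
    exact ⟨fun hh => hh.symm, fun hh => hh.symm⟩
  refine ⟨X, Y, E, F, a', b', fr_of_coords hdec hun hDt, ?_, ?_⟩
  · exact
      { hd := hd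
        hk := hKN
        hs := hk.u'w'
        hg := hg
        hU := fun σ i hi => (cNE _).1 (hU σ i hi)
        hP0 := fun j hj => (cSE _).1 (hP0 j hj)
        hC0 := fun j ε hj => (cSE _).1 (hC0 j ε hj)
        hP1 := fun j hj => (cNW _).1 (hP1 j hj)
        hC1 := fun j ε hj => (cNW _).1 (hC1 j ε hj)
        hDD := (cNE _).1 hDD }
  · intro v y hv hvy hy
    have key : ∀ (δ₁ : ℤ) (k : Bool), (δ₁ = 1 ∨ δ₁ = -1) → Cell f w c q 0 δ₁ k (f v) →
        y = w δ₁ ∨ y = cond k (c 0) (w 0) := by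
      intro δ₁ k hδ₁ hcell
      rcases h.step hδ₁ (by norm_num) (by norm_num) hvy hcell with h3 | h3 | ⟨s', δ', k', h3, h4⟩
      · left
        rw [h3, zero_add]
      · exact Or.inr h3
      · exfalso
        have hb := h3.bd hδ₁
        exact h.no_core (h3.pm hδ₁) (by omega) (by omega) hy h4
    rcases hv with hv | hv | hv
    · rcases key δ true hδ ((cNE _).2 hv) with h3 | h3
      · exact Or.inr (Or.inl (by rw [h3, hE]))
      · exact Or.inl (by rw [h3, hc0]; rfl)
    · rcases key δ false hδ ((cSE _).2 hv) with h3 | h3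
      · exact Or.inr (Or.inl (by rw [h3, hE]))
      · exact Or.inr (Or.inr (Or.inl (by rw [h3, hS]; rfl)))
    · rcases key (-δ) true hδ' ((cNW _).2 hv) with h3 | h3
      · exact Or.inr (Or.inr (Or.inr (by rw [h3, hW])))
      · exact Or.inl (by rw [h3, hc0]; rfl)

end Pool.Agent.Helper82.DG
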