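import Pool.Agent.Helper84.DG.Quad
import Pool.Agent.Helper18.RAC.Local3

/-!
# The place of the frame of a grid in a window, from the place of one vertex
-/

set_option autoImplicit false

namespace Pool.Agent.Helper82.DG

open Pool.Agent.Helper18.RAC Complex

variable {V : Type*}

/-- vertices which are neither hubs nor path vertices of the window -/
def NCv (a b : V) (w : ℤ → V) (z : V) : Prop :=
  z ≠ a ∧ z ≠ b ∧ ∀ s : ℤ, -20 ≤ s → s ≤ 20 → z ≠ w s

section

variable {H : SimpleGraph V} {f : V → ℂ} {a b v v' : V} {w c : ℤ → V} {q : ℤ → ℂ} {s δ : ℤ}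
  {k : Bool}

/-- a step to a vertex which is not in the core -/
theorem stepn (h : WinR H f a b w c q 20) (hδ : δ = 1 ∨ δ = -1) (h1 : -17 ≤ s) (h2 : s ≤ 17)
    (hv : H.Adj v v') (hc : Cell f w c q s δ k (f v)) (hv' : NCv a b w v') :
    ∃ s' δ' k', Rel s δ k s' δ' k' ∧ (δ' = 1 ∨ δ' = -1) ∧ s - 2 ≤ s' ∧ s' ≤ s + 2 ∧
      Cell f w c q s' δ' k' (f v') := by
  rcases h.step hδ (by omega) (by omega) hv hc with h3 | h3 | ⟨s', δ', k', h3, h4⟩
  · exact absurd h3 (hv'.2.2 _ (by omega) (by omega))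
  · exfalso
    cases k with
    | false => exact hv'.2.2 s (by omega) (by omega) h3
    | true =>
      rcases h.cab s (by omega) (by omega) with e | e
      · exact hv'.1 (h3.trans e)
      · exact hv'.2.1 (h3.trans e)
  · exact ⟨s', δ', k', h3, h3.pm hδ, (h3.bd hδ).1, (h3.bd hδ).2, h4⟩

/-- four pairwise adjacent vertices outside the core lie in the same cell -/
theorem k4n (h : WinR H f a b w c q 20) (hδ : δ = 1 ∨ δ = -1) {z₀ z₁ z₂ z₃ : V}
    (hc : Cell f w c q 0 δ k (f z₀)) (h01 : H.Adj z₀ z₁) (h02 : H.Adj z₀ z₂)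
    (h03 : H.Adj z₀ z₃) (h12 : H.Adj z₁ z₂) (h13 : H.Adj z₁ z₃) (h23 : H.Adj z₂ z₃)
    (n1 : NCv a b w z₁) (n2 : NCv a b w z₂) (n3 : NCv a b w z₃) :
    Cell f w c q 0 δ k (f z₁) := by
  have hk := h.ck (s := 0) hδ k (by norm_num) (by norm_num)
  have key : ∀ z, NCv a b w z → z ≠ w (0 + δ) ∧ z ≠ cond k (c 0) (w 0) := by
    intro z hz
    refine ⟨hz.2.2 _ (by omega) (by omega), ?_⟩
    cases k with
    | false => exact hz.2.2 0 (by norm_num) (by norm_num)
    | true =>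
      rcases h.cab 0 (by norm_num) (by norm_num) with e | e
      · intro h3; exact hz.1 (h3.trans e)
      · intro h3; exact hz.2.1 (h3.trans e)
  exact k4_cell h.rac hk hc h01 h02 h03 h12 h13 h23 (key _ n1) (key _ n2) (key _ n3)

theorem frame_of_cell (h : WinR H f a b w c q 20) {κ : GX → V} {M : ℕ} (hg : HasGrid H κ M)
    (hδ : δ = 1 ∨ δ = -1) (hE : κ (.X true) = w δ) (hW : κ (.Y true) = w (-δ))
    (hS : κ (.Y false) = w 0) (hN : κ (.X false) = a ∨ κ (.X false) = b)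
    (winj : ∀ s s', -20 ≤ s → s ≤ 20 → -20 ≤ s' → s' ≤ 20 → w s = w s' → s = s')
    (hnc : ∀ x : GN, x.ok M → κ (.v x) ≠ a ∧ κ (.v x) ≠ b ∧
      ∀ s, -20 ≤ s → s ≤ 20 → κ (.v x) ≠ w s) {k₁ : Bool}
    (h1 : Cell f w c q 0 δ k₁ (f (κ (.v (.U true (M - 1)))))) :
    κ (.X false) = c 0 ∧
      (∀ σ i, i < M → Cell f w c q 0 δ true (f (κ (.v (.U σ i))))) ∧
      (∀ j, j < 2 * M → Cell f w c q 0 δ false (f (κ (.v (.P false j))))) ∧
      (∀ j ε, j + 1 < 2 * M → Cell f w c q 0 δ false (f (κ (.v (.C false j ε))))) ∧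
      (∀ j, j < 2 * M → Cell f w c q 0 (-δ) true (f (κ (.v (.P true j))))) ∧
      (∀ j ε, j + 1 < 2 * M → Cell f w c q 0 (-δ) true (f (κ (.v (.C true j ε))))) ∧
      Cell f w c q 0 δ true (f (κ (.v (.D (M - 1) (M - 1))))) := by
  have hM := hg.hM
  have hδ' : -δ = 1 ∨ -δ = -1 := by omega
  have ncU : ∀ σ i, i < M → NCv a b w (κ (.v (.U σ i))) := fun σ i hi => hnc (.U σ i) hi
  have ncP : ∀ σ j, j < 2 * M → NCv a b w (κ (.v (.P σ j))) := fun σ j hj => hnc (.P σ j) hj
  have ncC : ∀ σ j ε, j + 1 < 2 * M → NCv a b w (κ (.v (.C σ j ε))) :=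
    fun σ j ε hj => hnc (.C σ j ε) hj
  have ncQ : NCv a b w (κ (.v .Q)) := hnc .Q trivial
  have ncD : NCv a b w (κ (.v (.D (M - 1) (M - 1)))) :=
    hnc (.D (M - 1) (M - 1)) ⟨by omega, by omega⟩
  -- the edges
  have eyp : ∀ σ j, j < 2 * M → H.Adj (κ (.Y σ)) (κ (.v (.P σ j))) := fun σ j hj =>
    hg.adj (.yp σ j) hj
  have exu : ∀ σ i, i < M → H.Adj (κ (.X σ)) (κ (.v (.U σ i))) := fun σ i hi =>
    hg.adj (.xu σ i) hi
  have eup : ∀ σ i, i < M → H.Adj (κ (.v (.U σ i))) (κ (.v (.P σ (2 * i)))) := fun σ i hi =>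
    hg.adj (.up σ i) hi
  have epp : ∀ σ j, j + 1 < 2 * M → H.Adj (κ (.v (.P σ j))) (κ (.v (.P σ (j + 1)))) :=
    fun σ j hj => hg.adj (.pp σ j) hj
  have epc : ∀ σ j ε, j + 1 < 2 * M → H.Adj (κ (.v (.P σ j))) (κ (.v (.C σ j ε))) :=
    fun σ j ε hj => hg.adj (.pc σ j ε) hj
  have epc' : ∀ σ j ε, j + 1 < 2 * M → H.Adj (κ (.v (.P σ (j + 1)))) (κ (.v (.C σ j ε))) :=
    fun σ j ε hj => hg.adj (.pc' σ j ε) hj
  have ecc : ∀ σ j, j + 1 < 2 * M → H.Adj (κ (.v (.C σ j false))) (κ (.v (.C σ j true))) :=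
    fun σ j hj => hg.adj (.cc σ j) hj
  have euu : H.Adj (κ (.v (.U false (M - 1)))) (κ (.v (.U true (M - 1)))) := hg.adj .uu trivial
  have euq : ∀ σ, H.Adj (κ (.v (.U σ (M - 1)))) (κ (.v .Q)) := fun σ => hg.adj (.uq σ) trivial
  have eud : ∀ σ, H.Adj (κ (.v (.U σ (M - 1)))) (κ (.v (.D (M - 1) (M - 1)))) :=
    fun σ => hg.adj (.ud σ) trivial
  have eqd : H.Adj (κ (.v .Q)) (κ (.v (.D (M - 1) (M - 1)))) := hg.adj .qd trivial
  -- the clique of the top
  have hUf : Cell f w c q 0 δ k₁ (f (κ (.v (.U false (M - 1))))) :=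
    k4n h hδ h1 euu.symm (euq true) (eud true) (euq false) (eud false) eqd
      (ncU false _ (by omega)) ncQ ncD
  have hDD : Cell f w c q 0 δ k₁ (f (κ (.v (.D (M - 1) (M - 1))))) :=
    k4n h hδ h1 (eud true) euu.symm (euq true) (eud false).symm eqd.symm (euq false)
      ncD (ncU false _ (by omega)) ncQ
  obtain ⟨hk1, hNc⟩ := h.steph hδ (by norm_num) (by norm_num) (exu false (M - 1) (by omega)).symm
    hUf hN
  subst hk1
  -- the chains: from one vertex to all
  have hchain : ∀ (σ : Bool) (δ₁ : ℤ) (k : Bool), (δ₁ = 1 ∨ δ₁ = -1) →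
      Cell f w c q 0 δ₁ k (f (κ (.v (.P σ (2 * M - 2))))) →
      (∀ j, j < 2 * M → Cell f w c q 0 δ₁ k (f (κ (.v (.P σ j))))) ∧
      (∀ j ε, j + 1 < 2 * M → Cell f w c q 0 δ₁ k (f (κ (.v (.C σ j ε))))) := by
    intro σ δ₁ k hδ₁ hc
    have up : ∀ j, j + 1 < 2 * M → Cell f w c q 0 δ₁ k (f (κ (.v (.P σ j)))) →
        Cell f w c q 0 δ₁ k (f (κ (.v (.P σ (j + 1))))) := by
      intro j hj hcj
      exact k4n h hδ₁ hcj (epp σ j hj) (epc σ j false hj) (epc σ j true hj) (epc' σ j false hj)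
        (epc' σ j true hj) (ecc σ j hj) (ncP σ _ hj) (ncC σ j false hj) (ncC σ j true hj)
    have down : ∀ j, j + 1 < 2 * M → Cell f w c q 0 δ₁ k (f (κ (.v (.P σ (j + 1))))) →
        Cell f w c q 0 δ₁ k (f (κ (.v (.P σ j)))) := by
      intro j hj hcj
      exact k4n h hδ₁ hcj (epp σ j hj).symm (epc' σ j false hj) (epc' σ j true hj)
        (epc σ j false hj) (epc σ j true hj) (ecc σ j hj) (ncP σ _ (by omega))
        (ncC σ j false hj) (ncC σ j true hj)
    have all : ∀ d j, j + d = 2 * M - 2 → Cell f w c q 0 δ₁ k (f (κ (.v (.P σ j)))) := by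
      intro d
      induction d with
      | zero =>
        intro j hj
        have : j = 2 * M - 2 := by omega
        rw [this]
        exact hc
      | succ d ih =>
        intro j hj
        exact down j (by omega) (ih (j + 1) (by omega))
    have hP : ∀ j, j < 2 * M → Cell f w c q 0 δ₁ k (f (κ (.v (.P σ j)))) := by
      intro j hj
      rcases Nat.lt_or_ge j (2 * M - 1) with h3 | h3
      · exact all (2 * M - 2 - j) j (by omega)
      · have h4 : j = (2 * M - 2) + 1 := by omega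
        rw [h4]
        exact up _ (by omega) hc
    refine ⟨hP, ?_⟩
    intro j ε hj
    cases ε with
    | false =>
      exact k4n h hδ₁ (hP j (by omega)) (epc σ j false hj) (epc σ j true hj) (epp σ j hj)
        (ecc σ j hj) (epc' σ j false hj).symm (epc' σ j true hj).symm (ncC σ j false hj)
        (ncC σ j true hj) (ncP σ _ hj)
    | true =>
      exact k4n h hδ₁ (hP j (by omega)) (epc σ j true hj) (epc σ j false hj) (epp σ j hj)
        (ecc σ j hj).symm (epc' σ j true hj).symm (epc' σ j false hj).symm (ncC σ j true hj)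
        (ncC σ j false hj) (ncP σ _ hj)
  -- neighbours in the path
  have hwa : ∀ t, -20 ≤ t → t ≤ 20 → H.Adj (w t) a := fun t e1 e2 => h.adja t e1 e2
  have hwb : ∀ t, -20 ≤ t → t ≤ 20 → H.Adj (w t) b := fun t e1 e2 => h.adjb t e1 e2
  have eM : 2 * (M - 1) = 2 * M - 2 := by omega
  -- the bottom chain
  have hPf : Cell f w c q 0 δ false (f (κ (.v (.P false (2 * M - 2))))) := by
    have e1 := eup false (M - 1) (by omega)
    rw [eM] at e1
    obtain ⟨s', δ', k', r1, r2, r3, r4, r5⟩ := stepn h hδ (by norm_num) (by norm_num) e1 hUf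
      (ncP false _ (by omega))
    have e2 := (eyp false (2 * M - 2) (by omega)).symm
    rw [hS] at e2
    have e3 := h.stepw r2 (by omega) (by omega) e2 r5 (hwa 0 (by norm_num) (by norm_num))
      (hwb 0 (by norm_num) (by norm_num))
    rcases e3 with e3 | ⟨e3, e4⟩
    · have e5 := winj _ _ (by norm_num) (by norm_num) (by omega) (by omega) e3
      rcases r1 with ⟨q1, q2⟩ | ⟨q1, q2, q3⟩ | ⟨q1, -⟩ | ⟨-, q1, q2, q3⟩
      · omega
      · omega
      · cases q1
      · omega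
    · have e5 := winj _ _ (by norm_num) (by norm_num) (by omega) (by omega) e4
      rcases r1 with ⟨q1, q2⟩ | ⟨q1, q2, q3⟩ | ⟨q1, -⟩ | ⟨-, q1, q2, q3⟩
      · rw [q1, q2, e3] at r5
        exact r5
      · rw [e3] at q3; cases q3
      · cases q1
      · rw [e3] at q1; cases q1
  obtain ⟨hP0, hC0⟩ := hchain false δ false hδ hPf
  -- the left chain
  have hPt : Cell f w c q 0 (-δ) true (f (κ (.v (.P true (2 * M - 2))))) := by
    have e1 := eup true (M - 1) (by omega)
    rw [eM] at e1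
    obtain ⟨s', δ', k', r1, r2, r3, r4, r5⟩ := stepn h hδ (by norm_num) (by norm_num) e1 h1
      (ncP true _ (by omega))
    have e2 := (eyp true (2 * M - 2) (by omega)).symm
    rw [hW] at e2
    have e3 := h.stepw r2 (by omega) (by omega) e2 r5 (hwa (-δ) (by omega) (by omega))
      (hwb (-δ) (by omega) (by omega))
    rcases e3 with e3 | ⟨e3, e4⟩
    · have e5 := winj _ _ (by omega) (by omega) (by omega) (by omega) e3
      rcases r1 with ⟨q1, q2⟩ | ⟨q1, q2, q3⟩ | ⟨q1, -⟩ | ⟨-, q1, q2, q3⟩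
      · omega
      · rw [q1, q2, q3] at r5
        exact r5
      · cases q1
      · omega
    · have e5 := winj _ _ (by omega) (by omega) (by omega) (by omega) e4
      rcases r1 with ⟨q1, q2⟩ | ⟨q1, q2, q3⟩ | ⟨q1, -⟩ | ⟨-, q1, q2, q3⟩
      · omega
      · rw [e3] at q3; cases q3
      · cases q1
      · rw [e3] at q1; cases q1
  obtain ⟨hP1, hC1⟩ := hchain true (-δ) true hδ' hPt
  refine ⟨hNc, ?_, hP0, hC0, hP1, hC1, hDD⟩
  intro σ i hi
  cases σ with
  | false =>
    obtain ⟨s', δ', k', r1, r2, r3, r4, r5⟩ := stepn h hδ (by norm_num) (by norm_num)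
      (eup false i hi).symm (hP0 (2 * i) (by omega)) (ncU false i hi)
    obtain ⟨e1, -⟩ := h.steph r2 (by omega) (by omega) (exu false i hi).symm r5 hN
    rcases r1 with ⟨q1, q2⟩ | ⟨q1, q2, q3⟩ | ⟨-, q1, -⟩ | ⟨q1, -⟩
    · rw [q1, q2, e1] at r5
      exact r5
    · rw [e1] at q3; cases q3
    · rw [e1] at q1; cases q1
    · cases q1
  | true =>
    obtain ⟨s', δ', k', r1, r2, r3, r4, r5⟩ := stepn h hδ' (by norm_num) (by norm_num)
      (eup true i hi).symm (hP1 (2 * i) (by omega)) (ncU true i hi)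
    have e2 := (exu true i hi).symm
    rw [hE] at e2
    have e3 := h.stepw r2 (by omega) (by omega) e2 r5 (hwa δ (by omega) (by omega))
      (hwb δ (by omega) (by omega))
    rcases e3 with e3 | ⟨e3, e4⟩
    · have e5 := winj _ _ (by omega) (by omega) (by omega) (by omega) e3
      rcases r1 with ⟨q1, q2⟩ | ⟨q1, q2, q3⟩ | ⟨q1, -⟩ | ⟨-, q1, q2, q3⟩
      · omega
      · rw [q1, q2, q3, neg_neg] at r5
        exact r5
      · cases q1
      · omega
    · have e5 := winj _ _ (by omega) (by omega) (by omega) (by omega) e4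
      rcases r1 with ⟨q1, q2⟩ | ⟨q1, q2, q3⟩ | ⟨q1, -⟩ | ⟨-, q1, q2, q3⟩
      · omega
      · rw [e3] at q3; cases q3
      · cases q1
      · rw [e3] at q1; cases q1

end

end Pool.Agent.Helper82.DG
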