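import Pool.Agent.Helper18.DG.Win2
import Pool.Agent.Helper18.DG.Win3

/-!
# The place of the frame of a grid in a window
-/

set_option autoImplicit false

namespace Pool.Agent.Helper82.DG

open Pool.Agent.Helper18.RAC Complex

variable {V : Type*}

theorem cell_of_win {H : SimpleGraph V} {f : V → ℂ} {a b : V} {w c : ℤ → V} {q : ℤ → ℂ}
    (h : WinR H f a b w c q 20) {δ : ℤ} (hδ : δ = 1 ∨ δ = -1)
    (winj : ∀ s s', -20 ≤ s → s ≤ 20 → -20 ≤ s' → s' ≤ 20 → w s = w s' → s = s') {R L : V}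
    (nR : NCv a b w R) (nL : NCv a b w L) (hRE : H.Adj (w δ) R) (hRL : H.Adj R L)
    (hLW : H.Adj L (w (-δ))) : ∃ k₁ : Bool, Cell f w c q 0 δ k₁ (f R) := by
  rcases h.around (t := δ) (by omega) (by omega) hRE with
    h1 | h1 | h1 | h1 | h1 | h1 | ⟨s₁, d₁, k₁, b1, b2, hd₁, h2, h3⟩
  · exact absurd h1 (nR.2.2 _ (by omega) (by omega))
  · exact absurd h1 (nR.2.2 _ (by omega) (by omega))
  · exact absurd h1 (nR.2.2 _ (by omega) (by omega))
  · exact absurd h1 (nR.2.2 _ (by omega) (by omega))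
  · exact absurd h1 nR.1
  · exact absurd h1 nR.2.1
  · obtain ⟨s₂, d₂, k₂, r1, r2, r3, r4, r5⟩ := stepn h hd₁ (by omega) (by omega) hRL h3 nL
    have e3 := h.stepw r2 (by omega) (by omega) hLW r5 (h.adja (-δ) (by omega) (by omega))
      (h.adjb (-δ) (by omega) (by omega))
    have key : s₁ = 0 ∧ d₁ = δ := by
      have e5 : -δ = s₂ + d₂ ∨ (k₂ = false ∧ -δ = s₂) := by
        rcases e3 with e3 | ⟨e3, e4⟩
        · exact Or.inl (winj _ _ (by omega) (by omega) (by omega) (by omega) e3)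
        · exact Or.inr ⟨e3, winj _ _ (by omega) (by omega) (by omega) (by omega) e4⟩
      rcases r1 with ⟨q1, q2⟩ | ⟨q1, q2, q3⟩ | ⟨q0, q0', q1, q2⟩ | ⟨q0, q0', q1, q2⟩
      · rcases e5 with e5 | ⟨-, e5⟩ <;> rcases h2 with h2 | ⟨h2, -⟩ <;> omega
      · rcases e5 with e5 | ⟨-, e5⟩ <;> rcases h2 with h2 | ⟨h2, -⟩ <;> omega
      · rcases e5 with e5 | ⟨-, e5⟩ <;> rcases h2 with h2 | ⟨h2, -⟩ <;> omega
      · rcases e5 with e5 | ⟨e5', e5⟩
        · rcases h2 with h2 | ⟨h2, h2'⟩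
          · omega
          · rw [q0] at h2'; cases h2'
        · rw [e5'] at q0'; cases q0'
    obtain ⟨q1, q2⟩ := key
    rw [q1, q2] at h3
    exact ⟨k₁, h3⟩

theorem frame_of_win {H : SimpleGraph V} {f : V → ℂ} {a b : V} {w c : ℤ → V} {q : ℤ → ℂ}
    (h : WinR H f a b w c q 20) {κ : GX → V} {M : ℕ} (hg : HasGrid H κ M) {δ : ℤ}
    (hδ : δ = 1 ∨ δ = -1) (hE : κ (.X true) = w δ) (hW : κ (.Y true) = w (-δ))
    (hS : κ (.Y false) = w 0) (hN : κ (.X false) = a ∨ κ (.X false) = b)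
    (winj : ∀ s s', -20 ≤ s → s ≤ 20 → -20 ≤ s' → s' ≤ 20 → w s = w s' → s = s')
    (hnc : ∀ x : GN, x.ok M → κ (.v x) ≠ a ∧ κ (.v x) ≠ b ∧
      ∀ s, -20 ≤ s → s ≤ 20 → κ (.v x) ≠ w s) :
    κ (.X false) = c 0 ∧
      (∀ σ i, i < M → Cell f w c q 0 δ true (f (κ (.v (.U σ i))))) ∧
      (∀ j, j < 2 * M → Cell f w c q 0 δ false (f (κ (.v (.P false j))))) ∧
      (∀ j ε, j + 1 < 2 * M → Cell f w c q 0 δ false (f (κ (.v (.C false j ε))))) ∧
      (∀ j, j < 2 * M → Cell f w c q 0 (-δ) true (f (κ (.v (.P true j))))) ∧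
      (∀ j ε, j + 1 < 2 * M → Cell f w c q 0 (-δ) true (f (κ (.v (.C true j ε))))) ∧
      Cell f w c q 0 δ true (f (κ (.v (.D (M - 1) (M - 1))))) := by
  have hM := hg.hM
  have e1 : H.Adj (κ (.X true)) (κ (.v (.U true (M - 1)))) :=
    hg.adj (.xu true (M - 1)) (show M - 1 < M by omega)
  have e2 : H.Adj (κ (.v (.U true (M - 1)))) (κ (.v (.P true (2 * (M - 1))))) :=
    hg.adj (.up true (M - 1)) (show M - 1 < M by omega)
  have e3 : H.Adj (κ (.Y true)) (κ (.v (.P true (2 * (M - 1))))) :=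
    hg.adj (.yp true (2 * (M - 1))) (show 2 * (M - 1) < 2 * M by omega)
  rw [hE] at e1
  rw [hW] at e3
  obtain ⟨k₁, h1⟩ := cell_of_win h hδ winj (hnc (.U true (M - 1)) (show M - 1 < M by omega))
    (hnc (.P true (2 * (M - 1))) (show 2 * (M - 1) < 2 * M by omega)) e1 e2 e3.symm
  exact frame_of_cell h hg hδ hE hW hS hN winj hnc h1

theorem win_gdraw {H : SimpleGraph V} {f : V → ℂ} {a b : V} {w c : ℤ → V} {q : ℤ → ℂ}
    (h : WinR H f a b w c q 20) {κ : GX → V} {M : ℕ} (hg : HasGrid H κ M) {δ : ℤ}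
    (hδ : δ = 1 ∨ δ = -1) (hE : κ (.X true) = w δ) (hW : κ (.Y true) = w (-δ))
    (hS : κ (.Y false) = w 0) (hN : κ (.X false) = a ∨ κ (.X false) = b)
    (winj : ∀ s s', -20 ≤ s → s ≤ 20 → -20 ≤ s' → s' ≤ 20 → w s = w s' → s = s')
    (hnc : ∀ x : GN, x.ok M → κ (.v x) ≠ a ∧ κ (.v x) ≠ b ∧
      ∀ s, -20 ≤ s → s ≤ 20 → κ (.v x) ≠ w s) :
    ∃ (X Y : ℂ → ℝ) (E F a' b' : ℝ), Fr X Y ∧
      GDraw H (fun v => X (f v)) (fun v => Y (f v)) E F a' b' κ M ∧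
      ∀ v y, (NE (fun v => X (f v)) (fun v => Y (f v)) v ∨
          SE (fun v => X (f v)) (fun v => Y (f v)) b' v ∨
          NW (fun v => X (f v)) (fun v => Y (f v)) a' v) →
        H.Adj v y → CoreH H a b y → Cor κ y :=
  gdraw_of_frame h hg hδ hE hW hS (frame_of_win h hg hδ hE hW hS hN winj hnc)

end Pool.Agent.Helper82.DG
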